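import Pool.Agent.Helper730.SMC
import Pool.Agent.Results.MP_1c3690_al.NilpotentByAbelian

set_option autoImplicit false

open scoped commutatorElement

namespace Pool.Agent.Results.MP_ecb9b3_al.NilpotentByAbelian

open Pool.Agent.Helper730.SM

/-- Let `V` be a variety of groups, given by a set `S` of laws, which is small: it does not contain
`2^ℵ₀` pairwise non-isomorphic finitely generated groups. Let `G` be a finitely generated group
in `V` which is nilpotent-by-abelian-by-finite: some subgroup `H` of finite index has nilpotent
derived subgroup. Then `G` has the Hopf property. -/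
theorem result :
    ∀ S : Set (FreeGroup ℕ),
      (¬ ∃ (G : Set ℕ → Type) (_ : ∀ s, Group (G s)),
          (∀ s, Group.FG (G s)) ∧
          (∀ s, ∀ w ∈ S, ∀ f : ℕ → G s, FreeGroup.lift f w = 1) ∧
          (∀ s t, Nonempty (G s ≃* G t) → s = t)) →
      ∀ (G : Type) [Group G], Group.FG G →
        (∀ w ∈ S, ∀ f : ℕ → G, FreeGroup.lift f w = 1) →
        (∃ H : Subgroup G, H.FiniteIndex ∧ Group.IsNilpotent (⁅H, H⁆ : Subgroup G)) →
        ∀ φ : G →* G, Function.Surjective φ → Function.Injective φ := by
  intro S hsmall G _ hfg hG hH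
  exact hopf_of_maxn (MP_1c3690_al.NilpotentByAbelian.result S hsmall G hfg hG hH)

end Pool.Agent.Results.MP_ecb9b3_al.NilpotentByAbelian
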